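import Pool.Agent.Helper45.LGB.St2

/-! # Project LGB, module GCN: non-trivial iterated commutators are connected -/

set_option autoImplicit false

namespace Pool.Agent.Helper62.LGB

open Pool.Agent.Helper45.LGB Pool.Agent.Helper83.RB
open scoped commutatorElement

private theorem ic_one {G : Type} [Group G] (u : List G) : ic (1 : G) u = 1 := by
  induction u with
  | nil => rfl
  | cons g u ih =>
    have h : ic (1 : G) (g :: u) = ic ⁅(1 : G), g⁆ u := rfl
    rw [h, commutatorElement_one_left, ih]

private theorem ic_commute {G : Type} [Group G] (y : G) (u : List G) :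
    ∀ v : G, Commute v y → (∀ g ∈ u, Commute g y) → Commute (ic v u) y := by
  induction u with
  | nil => exact fun v hv _ => hv
  | cons g u ih =>
    intro v hv hu
    have hg : Commute g y := hu g (List.mem_cons_self ..)
    have h : ic v (g :: u) = ic ⁅v, g⁆ u := rfl
    rw [h]
    refine ih _ ?_ fun a ha => hu a (List.mem_cons_of_mem _ ha)
    rw [commutatorElement_def]
    exact ((hv.mul_left hg).mul_left hv.inv_left).mul_left hg.inv_left

private theorem cvt {G : Type} (X : Set G) (u : List ↥X) :
    (List.map (fun y => y) (do let a ← u; pure (a : G))) = List.map (fun a : ↥X => (a : G)) u := by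
  simp

theorem hGCN (hCHA : StCHA) : StGCN := by
  intro G _ X x u hne y hy r n hnr
  rw [cvt] at hne
  refine hCHA ↥X (NC X) (fun a b h e => h e.symm) x u ?_ y hy r n hnr
  intro d₁ y d₂ hu
  by_contra hc
  push Not at hc
  have hx : Commute (x : G) (y : G) := by
    by_contra h
    exact hc x (Or.inl rfl) h
  have hd : ∀ g ∈ d₁.map (fun z : ↥X => (z : G)), Commute g (y : G) := by
    intro g hg
    obtain ⟨a, ha, rfl⟩ := List.mem_map.1 hg
    by_contra h
    exact hc a (Or.inr ha) h
  apply hne
  have h1 : Commute (ic (x : G) (d₁.map fun z : ↥X => (z : G))) (y : G) := ic_commute _ _ _ hx hd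
  rw [hu, List.map_append, List.map_cons]
  have h2 : ic (x : G) (d₁.map (fun z : ↥X => (z : G)) ++ (y : G) :: d₂.map (fun z : ↥X => (z : G))) =
      ic ⁅ic (x : G) (d₁.map fun z : ↥X => (z : G)), (y : G)⁆ (d₂.map fun z : ↥X => (z : G)) := by
    unfold ic
    rw [List.foldl_append, List.foldl_cons]
  rw [h2, commutatorElement_eq_one_iff_commute.2 h1, ic_one]

end Pool.Agent.Helper62.LGB
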